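import Pool.Agent.helper70.NZ.SpecC
import Pool.Agent.helper66.ZB.ZTL

/-!
# Project nz (MP_baa4d7_al): row YTL

Normalisers of normal chains are local in `G₀` (copy of ZB.ZTL).
-/

set_option autoImplicit false

namespace Pool.Agent.ND.NY.E

open Pool.Agent.helper58.DC Pool.Agent.DI Pool.Agent.GR Pool.Agent.OB Pool.Agent.DR Pool.Agent.FI Pool.Agent.FI3 Pool.Agent.FI4 Pool.Agent.FI4I Pool.Agent.LE Pool.Agent.L5 Pool.Agent.NAB Pool.Agent.NE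
open Pool.Agent.ZB (Pm Om KZ EQ BQ lQ MZc BDK)

theorem YTL (hCFA : CFA_stmt) (hNFV : NFV_stmt) (hCNTL : CNTL_stmt) : YTL_stmt := by
  intro p M hS G _ _ G₀ _ C hC φ hφ Q y hQ
  obtain ⟨P, hPC, hPmax⟩ := Pool.Agent.ZB.ZTL_max hC.ch.chain ⟨⊥, hC.ch.mem⟩
  have hPp : IsPGroup p P := hC.ch.pg P hPC
  have hPn' : P ≤ nrm C := by
    unfold nrm
    refine le_iInf₂ fun P' hP' => ?_
    exact hC.nm P' hP' P hPC (hPmax P' hP')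
  have hPn : P ≤ nrm C ⊓ G₀ := le_inf hPn' (hC.ch.le P hPC)
  have hnP' : nrm C ≤ nz P := by
    unfold nrm
    exact iInf₂_le P hPC
  have hnP : nrm C ⊓ G₀ ≤ nz P := inf_le_left.trans hnP'
  have hK : (nrm C ⊓ G₀) ⊓ cz P ≤ nrm C ⊓ G₀ := inf_le_left
  have hKn : nrm C ⊓ G₀ ≤ nz ((nrm C ⊓ G₀) ⊓ cz P) := by
    intro g hg
    rw [Subgroup.mem_normalizer_iff]
    have key : ∀ g' ∈ nrm C ⊓ G₀, ∀ x ∈ (nrm C ⊓ G₀) ⊓ cz P, g' * x * g'⁻¹ ∈ (nrm C ⊓ G₀) ⊓ cz P := by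
      intro g' hg' x hx
      exact ⟨(nrm C ⊓ G₀).mul_mem ((nrm C ⊓ G₀).mul_mem hg' hx.1) ((nrm C ⊓ G₀).inv_mem hg'), cz_conj (hnP hg') hx.2⟩
    intro x
    refine ⟨fun hx => key g hg x hx, fun hx => ?_⟩
    have h1 := key g⁻¹ ((nrm C ⊓ G₀).inv_mem hg) _ hx
    have h2 : g⁻¹ * (g * x * g⁻¹) * g⁻¹⁻¹ = x := by group
    rwa [h2] at h1
  obtain ⟨ψ₀, hψ₀, n, hn, hO⟩ := (hCFA G ((nrm C ⊓ G₀) ⊓ cz P) (nrm C ⊓ G₀) hK hKn).1 φ hφ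
  have hSB : SB M (nrm C ⊓ G₀) φ ψ₀ := hNFV p M hS G P (nrm C ⊓ G₀) hPp hPn hnP φ hφ ψ₀ hψ₀ n hn hO
  obtain ⟨l, hl, hlQ⟩ := hCNTL p M hS G (nrm C ⊓ G₀) P hPp hPn ψ₀ hψ₀ φ hSB.symm Q y hQ
  have hPQ : P ≤ Q := by
    intro r hr
    have hl' : l⁻¹ ∈ nz P := (nz P).inv_mem (hnP hl)
    have h1 : l⁻¹ * r * l⁻¹⁻¹ ∈ P := (Subgroup.mem_normalizer_iff.1 hl' r).1 hr
    have h2 := hlQ _ h1
    have h3 : l * (l⁻¹ * r * l⁻¹⁻¹) * l⁻¹ = r := by group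
    rwa [h3] at h2
  intro g hg
  have hg' : g ∈ cz Q := hg.2
  have hgP : g ∈ cz P := by
    rw [Subgroup.mem_centralizer_iff] at hg' ⊢
    intro x hx
    exact hg' x (hPQ hx)
  unfold nrm
  rw [Subgroup.mem_iInf]
  intro P'
  rw [Subgroup.mem_iInf]
  intro hP'
  exact Pool.Agent.ZB.ZTL_cz_le_nz (hPmax P' hP') hgP

end Pool.Agent.ND.NY.E
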